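import Pool.Agent.V8H71.CL.Main

/-!
# Products of surfaces: the conjecture of Lichtenbaum follows from codimension two

**Theorem.** Let `W` be a class of smooth projective varieties over finite fields of characteristic
`p`. For `X` in `W` and `i ≤ dim X` let `c = c (X, i) ≤ i / 2` be a number such that the slopes of
`H ^ i (X)` are at least `c` (for instance `c = 0`). The following statements are equivalent:

1. (Lichtenbaum) for all abelian varieties `A` and all products `X` of members of `W` the Weil-étale
   motivic cohomology groups `H ^ i_W (A, ℤ(n))` and `H ^ i_W (X × A, ℤ(n))` are finitely generated, for
   all `i` and `n` and over all finite extensions of a field of definition;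
2. (Tate, Beilinson and Parshin) for these `A` and `X × A` the strong Tate conjecture (the Tate
   conjecture and the semisimplicity of the eigenvalue in question) holds in all codimensions,
   homologically trivial cycles are rationally equivalent to zero up to torsion, and the higher Chow
   groups `CH ^ n (·, j)`, `j > 0`, are torsion;
3. (a) the Tate classes of codimension one on abelian varieties, and for abelian varieties
   `B₁, B₂, B₃` and supersingular elliptic curves `E` the Tate classes `b₁ ⊗ b₂ ⊗ b₃ ⊗ b₄` in
   `H ^ 1 (B₁) ⊗ H ^ 1 (B₂) ⊗ H ^ 1 (B₃) ⊗ H ^ 1 (E)`, which have codimension two, are algebraic,
   (b) for `X` in `W`, `i ≤ dim X`, `j = i - 2 c` and all abelian varieties `B₁, ..., B_j` the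
   generalised Tate classes `x ⊗ b₁ ⊗ ... ⊗ b_j` in `H ^ i (X) ⊗ H ^ 1 (B₁) ⊗ ... ⊗ H ^ 1 (B_j)`, which
   have codimension `i - c`, are algebraic, and
   (c) for `X` in `W` the homologically trivial elements of `CH ^ dim X (X × X)` are nilpotent
   correspondences.

In 2 and 3 cycles are taken over the algebraic closure with coefficients in an algebraically closed
field `Ω` of characteristic zero. In codimension zero and one, so for `i ≤ 1` in (b), the parts (a)
and (b) of 3 hold by the theorem of Tate.

If `W` consists of surfaces then 3 is about cycles of codimension at most two. So the conjecture of
Lichtenbaum for all products of surfaces over finite fields, all weights `n` and all degrees `i`,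
follows from the conjecture of Tate in codimension two on products of two surfaces (see the remark)
and the nilpotence of the homologically trivial correspondences between a surface and itself. If the
motives of the members of `W` are finite-dimensional in the sense of Kimura, for instance for
surfaces dominated by products of curves, then (c) holds, and the case of codimension two of the Tate
conjecture, that is (a) and (b), is equivalent to the finite generation of all these groups. In (a)
and (b) codimension at most two suffices also if `W` contains threefolds `X` such that the slopes of
`H ^ 3 (X)` are at least one. If `W` is the class of all smooth projective varieties then 1 is the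
conjecture of the question, Q1, and 3 is an equivalent form of it, about the Tate conjecture for
products of two varieties and nilpotence, which contains no higher Chow groups.

Remark, not part of the statement below: abelian varieties are quotients of Jacobians, so the `B_k`
can be replaced by curves `C_k`. So if `W` consists of surfaces (a) and (b) are, in codimension two,
about the products of the surfaces `C₁ × C₂` and `C₃ × E`, and of the surfaces `X` and `C₁ × C₂`.

**How this is stated.** Abelian varieties over finite fields are described, as objects `AbVar`, by
their first cohomology with the Frobenius endomorphism (Tate, Honda and Tate); their cohomology is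
the exterior algebra. For the other varieties `X` a structure `Cohomology` contains the cohomology
with its grading, the Frobenius endomorphism and the Lefschetz operator of an ample divisor, and
their known properties: the theorem of Deligne on the eigenvalues of Frobenius, the hard Lefschetz
theorem, products over a common extension of the fields of definition and the Künneth formula. A
structure `Cycles` contains the spaces spanned by the classes of algebraic cycles on the `A` and the
`X × A`, with their formal properties, see `MP_950c68_ag.CodimensionTwoForSurfaces`. `AreTate` says
that the classes of cycles are Tate classes, as the cycles are defined over finite fields. No theorem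
on the existence of cycles is assumed. The exterior products `b₁ ⊗ ... ⊗ b_j` are described, in
`IsSplit`, as products of classes `v₁, ..., v_j` of degree one on one abelian variety `B` which has
endomorphisms that isolate each of the `v_l`: then `v₁ ... v_j` is algebraic on `B` if and only if
`v₁ ⊗ ... ⊗ v_j` is algebraic on `B ^ j`. In `TateWithSupersingular` the same is said of four classes,
the last of which is supersingular, so that it comes from a supersingular elliptic curve.

`Motives` contains the higher Chow groups `CH ^ n (A, j)` and `CH ^ n (X × A, j)` over the algebraic
closure, `j ≥ 0`, for `j = 0` the Chow groups, with coefficients in `Ω`; the rings of correspondences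
`CH ^ dim A (A × A)` and `CH ^ dim X (X × X)` with their operations on these groups and on the
cohomology; the class maps, to the cohomology, which are zero for `j > 0` since the weights are
different; exterior products of correspondences of `X` and `Y`; and the sets `through X` of the
composites `X → B → X` of correspondences, for all abelian varieties `B`. `IsMotives`, `IsAbChow` and
`IsThrough` list their known properties. For an abelian variety `A`: Frobenius operates on
`CH ^ n (A, j)` as `q ^ n`, over finite extensions (Soulé, Geisser); an exterior product of two
cycles operates on cycles through their intersection number and on higher Chow groups through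
`CH ^ 0 (point, j) = 0`; Poincaré duality; homologically trivial correspondences are nilpotent
(Kimura). For `X`: Poincaré duality; the product of two composites `X → B → X` and `Y → B' → Y` is
one; such a composite operates on an element of `CH ^ n (X × A, j)` with the class zero through such
an element for an abelian variety (`B × A`); the composite of cycles with the classes `x ⊗ y` and
`x' ⊗ y'` on `X × B` operates on the cohomology in the known way.

`WeilEtale` contains the groups `H ^ i_W`. `IsWeilEtale` is the theorem of Geisser, for single
varieties: these groups are finitely generated, for all weights and degrees and over all finite
extensions, if and only if the strong Tate conjecture holds, homologically trivial cycles are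
rationally trivial and the higher Chow groups are torsion. No conjecture is assumed.

**Known.** Geisser (1998, 2004, 2006): the finite generation for all smooth projective varieties is
equivalent to the conjectures of Tate (strong form) and Beilinson for all of them, which imply the
conjecture of Parshin. Kahn (2003): finite generation if the motive is finite-dimensional and of
abelian type and the Tate conjecture holds (Soulé 1984 for products of curves, in part). The Tate
conjecture for all varieties implies that all motives over finite fields modulo numerical
equivalence come from abelian varieties (Milne 1994). The theorems `GrowthGap` and
`FrobeniusModuloDegenerate` of this collection assume the strong Tate conjecture in all codimensions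
in question, or an equation for Frobenius for all varieties. New is that codimension two suffices for
all products of surfaces, and that codimension at most `d` on products of two varieties of dimension
at most `d`, with nilpotence, suffices for all products of varieties of dimension at most `d`.

**The proof.** Assume 3. By `MP_950c68_ag.CodimensionTwoForSurfaces` the strong Tate conjecture holds
in all codimensions, for all products. It implies that Frobenius is semisimple on the cohomology of
`X` in `W`. For eigenvectors `x` and `x'` which are dual to each other there are an abelian variety
`B` and complementary products `y`, `y'` of eigenvectors on `B` such that `x ⊗ y` and `x' ⊗ y'` are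
Tate classes, so they are classes of cycles `u` and `v`; then `v ∘ u` operates as the projection to
the line of `x'`. So the diagonal of `X` is homologically equivalent to a sum of correspondences
which factor through abelian varieties, and by (c) the motive of `X` is a retract of a sum of motives
of abelian varieties. This passes to products. On an abelian variety, by the strong Tate conjecture
in the codimensions `n` and `d - n`, the projector of the cohomology to the eigenspace of Frobenius
for `q ^ n` is a sum `e` of exterior products of cycles, and `P (F) (1 - e)` is homologically
trivial, so nilpotent, for a polynomial `P` with `P (q ^ n) ≠ 0`; it operates on the elements of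
`CH ^ n (A, j)` with the class zero as the number `P (q ^ n)`, so they vanish (Soulé, Geisser, Kahn).
For `n > d` the same is true with `e = 0`, as `q ^ n` is not an eigenvalue. This passes to retracts.
-/

set_option autoImplicit false

namespace Pool.Agent.Results.MP_cb388a_ag.CodimensionTwoForSurfaces

open Pool.Agent.V8H94.CT (AbVar)
open Pool.Agent.V8H94.TC (TateHolds)
open Pool.Agent.V8H94.TV
open Pool.Agent.V8H94.TS (SlopesAtLeast TateInDegrees AreTate)
open Pool.Agent.V8H94.TX (TateWithSupersingular)
open Pool.Agent.V8H71.CL

/-- **The conjecture of Lichtenbaum for all products of members of a class `W` of varieties, and abelian
varieties, is equivalent to the strong Tate conjecture for the classes in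
`H ^ i (X) ⊗ H ^ 1 (B₁) ⊗ ... ⊗ H ^ 1 (B_j)`, `X` in `W`, `i ≤ dim X`, `j = i - 2 c`, `c` a lower
bound of the slopes of `H ^ i (X)`, for the classes of codimension one on abelian varieties and for the
classes in `H ^ 1 (B₁) ⊗ H ^ 1 (B₂) ⊗ H ^ 1 (B₃) ⊗ H ^ 1 (E)`, for abelian varieties `B₁, B₂, ...` and
supersingular elliptic curves `E`, together with the nilpotence of the homologically trivial elements
of `CH ^ dim X (X × X)` for `X` in `W`.** If `W` consists of surfaces, only codimension at most two
occurs in the last statement. -/
theorem result (p : ℕ) [Fact p.Prime] (Ω : Type) [Field Ω] [IsAlgClosed Ω] [CharZero Ω]
    (H : Cohomology p Ω) (Z : Cycles p H.T) (W : Set H.T.V) (c : H.T.V → ℕ → ℕ)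
    (hc : ∀ X ∈ W, ∀ i ≤ H.T.dim X, 2 * c X i ≤ i ∧ SlopesAtLeast p H.T X i (c X i))
    -- classes of cycles are Tate classes
    (hcyc : AreTate Z)
    -- the higher Chow groups and the correspondences
    (M : Motives p H.T) (hM : IsMotives Z M) (hthrough : IsThrough M)
    -- the Weil-étale motivic cohomology groups, theorem of Geisser
    (G : WeilEtale p H.T) (hweil : IsWeilEtale Z M G) :
    [(∀ A : AbVar p Ω, LichtenbaumAb G A) ∧
      ∀ X, IsProduct H.T W X → ∀ A : AbVar p Ω, Lichtenbaum G X A,
    (∀ A : AbVar p Ω, (∀ r, TateHolds Z.S A r) ∧ FaithfulAb (M.abelian A)) ∧
      ∀ X, IsProduct H.T W X → ∀ A : AbVar p Ω, StrongTate Z X A ∧ Faithful M X A,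
    (∀ A : AbVar p Ω, TateHolds Z.S A 1) ∧ TateWithSupersingular Z.S ∧
      ∀ X ∈ W, (∀ i ≤ H.T.dim X, TateInDegrees Z X i (i - 2 * c X i) (i - c X i)) ∧
        HomNilpotent M X].TFAE :=
  main H Z W c hc hcyc M hM hthrough G hweil

end Pool.Agent.Results.MP_cb388a_ag.CodimensionTwoForSurfaces
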