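import Pool.Agent.V8H76.Dg.FrThm

/-!
# Lichtenbaum's conjecture and the Frobenius endomorphism modulo degenerate correspondences

Let `X` be a smooth projective variety over the finite field with `q` elements, of dimension `d`, and let
`h(X)(a)` be its twisted Chow motive with rational coefficients. An endomorphism of `h(X)(a)` is called degenerate if it
factors through a finite sum of motives `h(Y)(b)` with `dim Y < d`. (For `a = 0` these are the
correspondences which are sums of cycles supported on `D × X` and on `X × D`, `dim D < d`; the quotient of `End h(X)` by the
ideal of these is a quotient of the group of zero-cycles of `X` over its own function field.) Let `φ` be the Frobenius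
endomorphism of `h(X)(a)`, that is, `q ^ (-a)` times the pull-back by the Frobenius endomorphism of `X`.

Theorem. The following are equivalent.

1. Lichtenbaum's conjecture: all Weil-étale motivic cohomology groups `H^i_W(X, ℤ(n))` of all smooth
   projective `X` are finitely generated.
2. For all `X` the strong conjecture of Tate holds, and rational and homological equivalence agree (with rational
   coefficients).
3. For all `X` the strong conjecture of Tate holds, and if `dim X ≥ 2` then the homologically trivial endomorphisms of `h(X)(a)` are
   nilpotent modulo degenerate ones.
4. For all `X` of dimension at least two and all `a` there is a polynomial `P` with rational coefficients such that `P(1) ≠ 0` and `P(φ)` is a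
   degenerate endomorphism of `h(X)(a)`.

The conditions 4 for all `a` together mean that there is a polynomial `P` such that `P(Fr)` is degenerate, where `Fr` is the
Frobenius endomorphism of `h(X)`, and `P(q ^ a) ≠ 0` for all integers `a`. This is a condition on zero-cycles at the generic point
of `X`, without reference to cohomology, to cycle class maps or to the algebraicity of given classes.

Moreover, for each `d`: if all `H^i_W(X, ℤ(n))` are finitely generated for `dim X ≤ 2 d` then 4 holds for `dim X ≤ d`; if 4 holds
for `dim X ≤ d` then all `H^i_W(X, ℤ(n))` are finitely generated for `dim X ≤ d`. For example, they are finitely generated for surfaces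
which satisfy the equations 4.

The setting. `C` is the category of Chow motives over the finite field with rational coefficients: a pseudo-abelian rigid symmetric monoidal
`ℚ`-linear category with direct sums; `R` is the `l`-adic cohomology with the grading by parity; `D` is the family of the smooth projective
varieties, not necessarily connected, all components having the same dimension, with `D.h X a = h(X)(a)`. The known theorems on motives and on the Weil-étale cohomology
which are used are listed as hypotheses in `IsFrobenius`, `IsHigherChow` and `IsWeilEtale`: the theorem of Deligne, the theorems
of Quillen and Harder on the `K`-groups of points and curves, the action of the Frobenius endomorphism on higher Chow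
groups, and the theorems of Geisser which relate Weil-étale cohomology to cycles.

Proof. From 3 to 4: Let `χ = (T - 1) ^ s B`, `B(1) ≠ 0`, be a rational polynomial which annihilates `φ` on the cohomology. Choose cycles `f_i` and `g_i` which are dual bases modulo numerical
equivalence, and let `e = ∑ f_i ∘ g_i`. By Tate's conjecture for the dual, numerically trivial cycles on `X` are homologically trivial, so that `e` fixes
the classes of cycles. Hence it fixes the generalised eigenspace of `φ` for the eigenvalue `1`, and `(1 - e) B(φ)` is homologically
trivial. It is nilpotent modulo degenerate endomorphisms, and `e` is degenerate, since it factors through a sum of unit motives. So `B(φ) ^ n` is degenerate.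
From 4 to 1: by induction on the dimension, if `P(φ) = v ∘ u` factors through `L`, a sum of motives of smaller dimension, then the strong conjecture of
Tate, the equality of rational and homological equivalence and the conjecture of Parshin for `L` imply these for `h(X)(a)`: `φ` acts on the groups of
cycles and on the higher Chow groups of `h(X)(a)` as the identity, `P(φ)` as the number `P(1) ≠ 0`.
-/

set_option autoImplicit false

open CategoryTheory Limits MonoidalCategory
open Pool.Agent.Y112.SR Pool.Agent.N64.AF Pool.Agent.V8H76.Dg

namespace Pool.Agent.Results.MP_cb388a_ag.FrobeniusModuloDegenerate

universe v u w x y z

/-- Lichtenbaum's conjecture for all smooth projective varieties over a finite field is equivalent to the strong conjecture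
of Tate together with the nilpotence of homologically trivial endomorphisms modulo degenerate ones, and
to the statement that the Frobenius endomorphisms satisfy equations `P(φ) = 0`, `P(1) ≠ 0`, modulo degenerate
endomorphisms. -/
theorem result {C : Type u} [Category.{v} C] [Preadditive C] [Linear ℚ C] [MonoidalCategory C]
    [MonoidalPreadditive C] [MonoidalLinear ℚ C] [SymmetricCategory C] [RightRigidCategory C]
    [IsIdempotentComplete C] [HasBinaryBiproducts C] {K : Type w} [Field K] [Algebra ℚ K]
    (R : SuperRealisation C K) (hR : IsReal ℚ R) (D : Varieties.{u, y} C) (φ : 𝟭 C ⟶ 𝟭 C)
    (hF : IsFrobenius D R φ) (H : ℕ → C ⥤ ModuleCat.{x} ℚ) (hH : IsHigherChow D φ H)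
    (W : D.Var → ℕ → ℤ → Type z) [∀ X n i, AddCommGroup (W X n i)]
    (hW : IsWeilEtale D R φ H W) :
    [Lichtenbaum D W, AllTateAndRational D R φ, TateAndNilpotent D R φ, Equations D φ 2].TFAE ∧
    ∀ d : ℕ, (LichtenbaumUpTo D W (2 * d) → EquationsUpTo D φ 1 d) ∧
      (EquationsUpTo D φ 2 d → LichtenbaumUpTo D W d) :=
  ⟨lichtenbaum_tfae hR hF hH hW, lichtenbaum_dim hR hF hH hW⟩

end Pool.Agent.Results.MP_cb388a_ag.FrobeniusModuloDegenerate
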