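import Pool.Agent.V8H87.GG.WE

/-!
# Finite generation of Weil-étale cohomology and the growth of Chow groups

Let `X` be any smooth projective variety over the finite field with `q` elements, and `b` the dimension
of its `ℓ`-adic cohomology.

Theorem. (1) Suppose that, for some real number `r < b + 2`, the inequality
`dim CH^*(X ^ n)_ℚ ≤ r ^ n` holds for infinitely many `n` (this is `SmallChow`). Then the Chow motive
of `X` is finite-dimensional in the sense of Kimura.

(2) If this is so and the strong form of the conjecture of Tate holds for one power `X ^ n`, then all
the higher Chow groups `CH^i(X ^ n, j)`, `j ≥ 1`, are torsion and all the Weil-étale motivic cohomology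
groups `H^i_W(X ^ n, ℤ(m))` are finitely generated.

(3) Suppose that the strong form of the conjecture of Tate holds for all powers of `X`. Then the
following statements are equivalent.
* The groups `H^i_W(X ^ n, ℤ(m))` are finitely generated for all `n`, `m` and `i` (the conjecture of
  the question for all powers of `X`).
* Rational and numerical equivalence agree on all powers of `X`, and their higher Chow groups are
  torsion.
* For some real number `r < b + 2`, `dim CH^*(X ^ n)_ℚ ≤ r ^ n` for infinitely many `n`.
* For some real number `r < b + 2` the graphs of the `n!` permutations of the factors of `X ^ n` span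
  a space of dimension at most `r ^ (2 n)` in the Chow group of `X ^ n × X ^ n`, for infinitely many
  `n` (this is `SmallPerm`).
* The Chow motive of `X` is finite-dimensional in the sense of Kimura.

The conjecture predicts that `CH^*(X ^ n)_ℚ` has at most the dimension `b ^ n`. So there is a gap: for
`X` as in (3), if one of the groups `H^i_W(X ^ n, ℤ(m))` is not finitely generated then the Chow groups
of all large powers of `X` are exponentially larger, the basis of the power being at least `b + 2`. And
a bound for the size of the Chow groups, with rational coefficients and modulo rational equivalence,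
of infinitely many powers implies the finite generation of all the integral groups
`H^i_W(X ^ n, ℤ(m))`, and the vanishing of the rational higher Chow groups.

The setting. `C` is the pseudo-abelian hull of the category of the smooth projective schemes over the
finite field with the groups `CH^*(X × Y)_ℚ` (all codimensions) as morphisms; it is a rigid symmetric
monoidal category in which all `h(X)` are self-dual, `T = h(X)`, `tp T n = h(X ^ n)`, and
`𝟙_ C ⟶ tp T n` is `CH^*(X ^ n)_ℚ`. `R` is the `ℓ`-adic cohomology with coefficients extended to
an algebraic closure `K` of `ℚ_ℓ`; the sign conjecture `C⁺` is known for all `X` (Katz and Messing).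
`φ n` is the class of the Frobenius endomorphism of `X ^ n` (`IsWt`: it acts on the cycles of each
codimension through a power of `q`). `H j` is the functor of the higher Chow groups `CH^*(-, j)_ℚ`
(`IsHigherChow`: theorem of Quillen for the finite field, and operation of the Frobenius endomorphism).
`W n m i` is `H^i_W(X ^ n, ℤ(m))`; `IsWeilEtale` contains the known relations of these groups with cycles
(Geisser). `StrongTate` says that the rank of the cycles modulo numerical equivalence on `X ^ n`
is the total multiplicity of the `q ^ i` as eigenvalues of `φ n` on the cohomology; that is, for all `i` the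
rank of the cycles of codimension `i` is the order of the pole of the zeta function at `s = i`.

Steps of the proof. For the gap see `V8H87/GG/Count` and `V8H87/GG/Kim`. If the motive is finite-dimensional
then there is an idempotent `e` which is a sum of compositions `X ^ n → point → X ^ n`, and a polynomial
`P` without the zeros `q ^ i`, such that `P(φ) (1 - e)` is nilpotent (after Kahn); an additive functor on
which `φ` acts through powers of `q` is then a direct sum of copies of its value at the point.
-/

set_option autoImplicit false

open CategoryTheory MonoidalCategory Module
open Pool.Agent.Y112.SR Pool.Agent.Y112.KD Pool.Agent.N64.AF Pool.Agent.V8H87.GG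
open Pool.Agent.R905 (IsKimuraFinite)

namespace Pool.Agent.Results.MP_cb388a_ag.GrowthGap

universe v u w x y

/-- Finite generation of the Weil-étale cohomology groups of the powers of a variety and the size of
their Chow groups. -/
theorem result {C : Type u} [Category.{v} C] [Preadditive C] [MonoidalCategory C]
    [MonoidalPreadditive C] [SymmetricCategory C] [RightRigidCategory C]
    [Linear ℚ C] [MonoidalLinear ℚ C] [IsIdempotentComplete C]
    {K : Type w} [Field K] [IsAlgClosed K] [Algebra ℚ K] (R : SuperRealisation C K)
    (T : C) [ExactPairing T T] (h : IsPow ℚ R T) (q : ℚ)
    (φ : ∀ n, tp T n ⟶ tp T n) (hφ : ∀ n, IsWt q (φ n))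
    (H : ℕ → C ⥤ ModuleCat.{x} ℚ) (hH : IsHigherChow q T φ H)
    (W : ℕ → ℤ → ℤ → Type y) [∀ n m i, AddCommGroup (W n m i)] (hW : IsWeilEtale R q T φ H W) :
    (SmallChow R T → IsKimuraFinite T) ∧
    (IsKimuraFinite T → ∀ n, StrongTate R q (φ n) →
      Parshin H T n ∧ ∀ m i, AddGroup.FG (W n m i)) ∧
    ((∀ n, StrongTate R q (φ n)) →
      [∀ n m i, AddGroup.FG (W n m i),
        ∀ n, (∀ f : 𝟙_ C ⟶ tp T n, NumTriv f → f = 0) ∧ Parshin H T n,
        SmallChow R T, SmallPerm R T, IsKimuraFinite T].TFAE) :=
  main_we h q φ hφ H hH W hW

end Pool.Agent.Results.MP_cb388a_ag.GrowthGap
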