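import Mathlib
import Pool.Agent.V8H94.GC.WE
import Pool.Agent.V8H94.GC.PrimeDegree
import Pool.Agent.TH117.GN.WeilEtaleDefs

/-!
# Finite generation of Weil-étale motivic cohomology for varieties generated by abelian varieties
with independent slopes in generic CM fields

Over an algebraic closure of the field with `p` elements each abelian variety is isogenous to the
reduction of an abelian variety of CM type (Honda, Tate). So an abelian variety over the field with
`p ^ a` elements is modelled by `RedAV`: a finite product of CM types `(E m, Φ m)` with Weil numbers
`π m ∈ E m` that satisfy the formula of Shimura and Taniyama; its cohomology of degree `n`, with
coefficients in an algebraically closed field `Ω`, consists of the alternating `n`-forms on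
`Ω ⊗ H_1`, on which the Frobenius endomorphism acts by `π`. (`ν` is a fixed isomorphism of the
algebraic closure of `ℚ_p` with `ℂ`, which is part of these data.)

A CM field `K` is *generic* (`IsGeneric`) if for any two complex embeddings `φ`, `ψ` of `K` which are
neither equal nor complex conjugate some automorphism of `ℂ` is the identity on `φ (K)` and the
complex conjugation on `ψ (K)`. In other words, the functions on the set of the embeddings of `K`
which change their sign under complex conjugation form an absolutely irreducible representation of
the group of automorphisms of `ℂ`. This is so for instance if the Galois group is as large as
possible. The theorem contains a proof that all CM fields of the following kinds (`IsExample`) are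
generic: imaginary quadratic fields, fields of degree four which are not normal over `ℚ`, fields of
degree `2 l`, `l` an odd prime number, which contain no quadratic field.

An abelian variety `Y` over a finite field of characteristic `p` has **independent slopes**
(`IndependentSlopes`) if

* each factor of `Y` is supersingular, or some power of its Frobenius endomorphism lies in one of
  finitely many generic CM fields `K i`, which are pairwise independent: for `i ≠ i'` and all complex
  embeddings `φ` of `K i` and `ψ` of `K i'` some automorphism of `ℂ` is the identity on `φ (K i)` and
  the complex conjugation on `ψ (K i')` (no condition if there is only one field);
* for each `i` the different slope vectors `u ⟨i, k⟩` of the factors with the field `K i` are linearly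
  independent over `ℚ`. Here the slope vector of a number `x` in `K i`, the power with exponent `s` of
  a Frobenius endomorphism over the field with `p ^ a` elements, is the function
  `τ ↦ 2 v (τ x) / s - a` on the set of the embeddings `τ` of `K i` into `ℚ̄_p`, `v (p) = 1`.

So over an algebraic closure `Y` may be isogenous to a product of powers of any number of
pairwise nonisogenous simple abelian varieties with **the same** CM field `K i`, as long as their
slope vectors are linearly independent (their number is at most `[K i : ℚ] / 2`), of such products
for independent fields, and of a supersingular abelian variety. Nothing is assumed about the Newton
polygons. For instance all products of elliptic curves have independent slopes (the case of Spiess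
and Kahn), and any three pairwise nonisogenous ordinary abelian varieties over an algebraic closure
with multiplication by the same generic field have linearly independent slope vectors (no three
vectors with coordinates `± a`, no two of them proportional, are linearly dependent). The condition
is the best possible for the absence of exotic Tate classes: a linear relation between the slope
vectors of `π ⟨i, k⟩` gives a multiplicative relation between their conjugates.

`Homology Ω V` are data of motivic homology `M X i j = H_i^M(X, ℚ(j)) = CH_j(X, i - 2 j) ⊗ ℚ` and of
`ℓ`-adic homology `E X i j = H_i(X, ℚ_ℓ(j))` (coefficients extended to `Ω`) of schemes `X` of finite
type over a finite field (the elements of `V`), with the Frobenius and the regulator. Let `𝒢` be the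
smallest class (`Generated`) of such schemes that contains those with the homology groups of abelian
varieties with independent slopes (`IsAbelianIndependent`; the fields `K i` may be different for
different members), that is closed under direct summands of finite sums of twists of motives, and
that contains all of a closed subscheme `Z` of `X`, `X` and `X ∖ Z` if it contains two of them. It
contains for instance all products of powers of abelian varieties as above, all products of powers
of curves whose Jacobians together have independent slopes and of open subsets of such curves,
symmetric powers of them, and the singular and the open varieties with a stratification by such
varieties.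

**For all smooth projective varieties `X` in `𝒢` (the property `S`) and all `n` and `i` the
Weil-étale motivic cohomology group `W X n i = H^i_W(X, ℤ(n))` is finitely generated.** Here we use
the theorem of Geisser and Kahn (`IsWeilEtale`) that these groups are finitely generated if for `X`
the conjecture of Tate and Beilinson `TB` holds (for all degrees and twists).

Properties of the theory of cycles that are used for the abelian varieties (`IsChow`,
`IsMotivic`): Poincaré duality, the formal properties of correspondences, the nilpotence of
homologically trivial correspondences (Kimura), the operation of the Frobenius endomorphism on higher
Chow groups, the vanishing of the higher rational `K`-groups of a finite field (Quillen), and the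
algebraicity of the classes in `Alg` (of which only products of classes of divisors matter here,
theorem of Tate). The framework, and the passage from the Tate conjecture to all degrees and to the
class `Generated` (Soulé, Geisser, Kahn, Jannsen) are those of `AlmostAllSlopeTypes`
(MP_cb388a_ag). In that result and in `PrimePowerBlocks` there is at most one slope vector for each
field, and it satisfies further conditions, or almost all choices of its signs are admissible.

The proof. Let `L` be a Galois extension of `ℚ` which contains the conjugates of the fields `K i`,
`G` its group, `X i` the set of the embeddings of `K i`, `u ⟨i, k⟩` the slope vectors. A
multiplicative relation between the Frobenius eigenvalues gives odd functions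
`z ⟨i, k⟩ : X i → ℤ` with `∑ z ⟨i, k⟩ (φ) u ⟨i, k⟩ (g φ) = 0` for all `g` in `G` (the sum over `i`, `k` and
`φ`). Fix `i`, `φ₀` in `X i` and `g`, and sum over all `g h`, `h` in the stabilizer `H` of `φ₀`. If `φ`
in some `X i'` is not `φ₀` or its conjugate then an element of `H` maps `φ` to its conjugate, so
that the sum of the numbers `u (g h φ)` over `h` is zero. What remains is
`∑ k, z ⟨i, k⟩ (φ₀) u ⟨i, k⟩ (g φ₀) = 0`. As `g φ₀` is an arbitrary element of `X i`, the vector
`∑ k, z ⟨i, k⟩ (φ₀) u ⟨i, k⟩` is zero, so that `z ⟨i, k⟩ (φ₀) = 0`. For fields of degree `2 l` without
quadratic subfields: if two embeddings cannot be separated as in the definition of generic fields,
there is a nonzero integral matrix on `X`, invariant under `G`, odd in both variables and zero on the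
diagonal; on the odd functions, the group ring of a group of order `l`, a nonconstant eigenvector
would give a relation between the `l`-th roots of unity; hence the eigenspace of the constant vector
is a line stable under `G`, and `G` acts on it through a character which defines a quadratic
subfield.
-/

set_option autoImplicit false

namespace Pool.Agent.Results.MP_cb388a_ag.IndependentSlopes

open NumberField Pool.Agent.W495.FM Pool.Agent.V8H94.GC

open Pool.Agent.TH117.GN (IsWeilEtale)

/-- **The Weil-étale motivic cohomology groups of all smooth projective varieties generated by
abelian varieties with independent slopes in generic CM fields are finitely generated.** -/
theorem result :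
    (∀ (p : ℕ) [Fact p.Prime] (ν : PadicAlgCl p ≃+* ℂ) (Ω : Type) [Field Ω] [IsAlgClosed Ω]
      [CharZero Ω] (V : Type) (T : Homology Ω V), IsHomology T → ∀ (S : V → Prop)
      (W : V → ℤ → ℤ → Type) [∀ X n i, AddCommGroup (W X n i)], IsWeilEtale T S W →
      ∀ X : V, S X → Generated T (IsAbelianIndependent ν T) X → ∀ n i : ℤ,
        AddGroup.FG (W X n i)) ∧
    ∀ (E : Type) [Field E] [NumberField E] [IsCMField E], IsExample E → IsGeneric E :=
  ⟨fun _ _ _ _ _ _ _ _ _ hT _ _ _ hW X hS hX n i => hW X hS (tb_indep hT hX) n i,
    fun _ _ _ _ h => isGeneric_of_example h⟩

end Pool.Agent.Results.MP_cb388a_ag.IndependentSlopes
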